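import Pool.Agent.H44.SO.Targets
import Pool.Agent.H44.SO.Basic

/-!
# Several orbits of vertices: from local injections to behaviours
-/

set_option autoImplicit false
set_option linter.unusedVariables false

namespace Pool.Agent.H68.SO.LCB

open Pool.Agent.H44.SO Pool.Agent.H57.SO Pool.Agent.H68.BP Pool.Agent.H58.SF Pool.Agent.H53.GC
open Pool.Agent.H53.NR Function
open Pool.Agent.H57.EQ (Cx Tour)
open Pool.Agent.H44.EQ (PolMap TInv BinPol ZA JSet sel kap)

/-- the invariant property of the pairs -/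
def RR {V S X : Type} (P : Pal S X) (c : V → V → S ⊕ X) (s : S) (v w : Fin 2 → V)
    (y : S ⊕ X) : Prop :=
  (v = w → ∀ s', (∀ i, vt P c (v i) = s') → y = Sum.inl s') ∧
  (∀ s', (∀ i, vt P c (v i) = s') → (∀ i, vt P c (w i) = s') → v 0 ≠ w 0 → v 1 ≠ w 1 →
    ∀ s'', y ≠ Sum.inl s'') ∧
  ((∀ i, vt P c (v i) = s) → (∀ i, vt P c (w i) = s) → v ≠ w → ∀ s'', y ≠ Sum.inl s'')

theorem RR_same {V S X : Type} [LinearOrder V] {P : Pal S X} {c : V → V → S ⊕ X}
    (hc : Col P c) (s : S) (v w v' w' : Fin 2 → V) (y : S ⊕ X)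
    (h : Same c (Sum.elim v w) (Sum.elim v' w')) (hR : RR P c s v w y) : RR P c s v' w' y := by
  have hv : ∀ i, vt P c (v' i) = vt P c (v i) := by
    intro i
    have h1 : c (v i) (v i) = c (v' i) (v' i) := (h (Sum.inl i) (Sum.inl i)).2
    rw [vt, vt, h1]
  have hw : ∀ i, vt P c (w' i) = vt P c (w i) := by
    intro i
    have h1 : c (w i) (w i) = c (w' i) (w' i) := (h (Sum.inr i) (Sum.inr i)).2
    rw [vt, vt, h1]
  have he : ∀ i, v i = w i ↔ v' i = w' i := by
    intro i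
    have h1 : c (v i) (w i) = c (v' i) (w' i) := (h (Sum.inl i) (Sum.inr i)).2
    exact Col.eq_iff' hc h1
  obtain ⟨h1, h2, h3⟩ := hR
  refine ⟨fun hvw s' hs' => ?_, fun s' hs1 hs2 h0 h1' => ?_, fun hs1 hs2 hne => ?_⟩
  · exact h1 (funext fun i => (he i).2 (congrFun hvw i)) s' fun i => by rw [← hv i]; exact hs' i
  · exact h2 s' (fun i => by rw [← hv i]; exact hs1 i) (fun i => by rw [← hw i]; exact hs2 i)
      (fun h => h0 ((he 0).1 h)) (fun h => h1' ((he 1).1 h))
  · exact h3 (fun i => by rw [← hv i]; exact hs1 i) (fun i => by rw [← hw i]; exact hs2 i)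
      (fun h => hne (funext fun i => (he i).1 (congrFun h i)))

theorem pf_LCB (hK : Pool.Agent.H44.SO.T_CAN) (hB : Pool.Agent.H44.SO.T_BHH) :
    Pool.Agent.H44.SO.T_LCB := by
  classical
  intro σ V S X _ P 𝔸 M c hs s hL
  have hc := hs.col
  obtain ⟨H, hH1, hH2, hH3⟩ := hK σ V S X P 𝔸 M c hs (Fin 2) (RR P c s)
    (fun v w v' w' y h hR => RR_same hc s v w v' w' y h hR) (by
      intro W _ G hG
      have hfin : (Set.range fun x : Fin 2 × W => G x.1 x.2).Finite := Set.finite_range _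
      set Q : Finset V := hfin.toFinset with hQ
      set q : Fin Q.card → V := fun i => ((Q.equivFin.symm i : Q) : V) with hq
      have hqi : Injective q := fun i j hij => Q.equivFin.symm.injective (Subtype.ext hij)
      have hmem : ∀ i w, G i w ∈ Q := fun i w => by
        rw [hQ, Set.Finite.mem_toFinset]
        exact ⟨(i, w), rfl⟩
      set e : Fin 2 → W → Fin Q.card := fun i w => Q.equivFin ⟨G i w, hmem i w⟩ with he
      have hqe : ∀ i w, q (e i w) = G i w := by
        intro i w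
        rw [hq, he]
        simp
      obtain ⟨γ, hγ, hinj⟩ := hL Q.card q hqi
      refine ⟨fun w => γ (e 0 w, e 1 w), ?_, fun u w => ⟨?_, ?_, ?_⟩⟩
      · intro l z hz
        exact hγ.pol l (fun a => e 0 (z a)) (fun a => e 1 (z a)) (by simpa [hqe] using hz 0)
          (by simpa [hqe] using hz 1)
      · intro hvw s' hs'
        have h1 : ∀ i, e i u = e i w := fun i => hqi (by rw [hqe, hqe]; exact congrFun hvw i)
        show c (γ (e 0 u, e 1 u)) (γ (e 0 w, e 1 w)) = Sum.inl s'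
        rw [← h1 0, ← h1 1, Col.vt hc, hγ.typ _ _ (by rw [hqe, hqe, hs' 0, hs' 1]), hqe, hs' 0]
      · intro s' hs1 hs2 h0 h1 s'' hcon
        have h2 := Col.eq_of_inl hc hcon
        refine hγ.sep (e 0 u) (e 1 u) (e 0 w) (e 1 w) ?_ ?_ ?_ ?_ ?_ h2
        · rw [hqe, hqe, hs1 0, hs1 1]
        · rw [hqe, hqe, hs1 0, hs2 0]
        · rw [hqe, hqe, hs1 0, hs2 1]
        · intro h3
          exact h0 (by show G 0 u = G 0 w; rw [← hqe 0 u, ← hqe 0 w, h3])
        · intro h3
          exact h1 (by show G 1 u = G 1 w; rw [← hqe 1 u, ← hqe 1 w, h3])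
      · intro hs1 hs2 hne s'' hcon
        have h2 := Col.eq_of_inl hc hcon
        have h3 := hinj (e 0 u, e 1 u) (e 0 w, e 1 w)
          ⟨by show vt P c (q (e 0 u)) = s; rw [hqe]; exact hs1 0,
            by show vt P c (q (e 1 u)) = s; rw [hqe]; exact hs1 1⟩
          ⟨by show vt P c (q (e 0 w)) = s; rw [hqe]; exact hs2 0,
            by show vt P c (q (e 1 w)) = s; rw [hqe]; exact hs2 1⟩ h2
        apply hne
        have h4 : e 0 u = e 0 w := congrArg Prod.fst h3
        have h5 : e 1 u = e 1 w := congrArg Prod.snd h3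
        funext i
        fin_cases i
        · show G 0 u = G 0 w
          rw [← hqe 0 u, ← hqe 0 w, h4]
        · show G 1 u = G 1 w
          rw [← hqe 1 u, ← hqe 1 w, h5])
  have hCan : Can 𝔸 c (Fin 2) (fun v w => (H v w).1) := by
    refine ⟨fun v w v' w' h => by rw [hH1 v w v' w' h], fun W _ G => ?_⟩
    obtain ⟨ψ, h1, h2⟩ := hH3 W G
    exact ⟨ψ, h1, fun u w => by rw [h2]⟩
  obtain ⟨τ, κ, hbh, h1, h2⟩ := hB σ V S X P 𝔸 M c hs (Fin 2) Fin.val Fin.val_injective _ hCan
  refine ⟨τ, κ, ⟨hbh, fun s' => ?_, fun s' hk => ?_⟩, fun A hk => ?_⟩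
  · obtain ⟨z, -, hz, hz2⟩ := h1 (fun _ => s')
    have h3 := (hH2 z z).1 rfl s' hz
    exact Sum.inl.inj (hz2.symm.trans h3)
  · obtain ⟨z, z', -, hz, hz', hA, s'', hs''⟩ := h2 _ _ _ hk
    exact (hH2 z z').2.1 s' hz hz' (fun h => ((hA 0).1 h).elim) (fun h => ((hA 1).1 h).elim) s'' hs''
  · obtain ⟨z, z', -, hz, hz', hA, s'', hs''⟩ := h2 _ _ _ hk
    by_contra hne
    refine (hH2 z z').2.2 hz hz' (fun h => hne ?_) s'' hs''
    exact Set.eq_univ_of_forall fun i => (hA i).1 (congrFun h i)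

end Pool.Agent.H68.SO.LCB
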