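import Pool.Agent.H58.SO.Basic

/-!
# Several orbits of vertices: colours and orders of configurations
-/

set_option autoImplicit false
set_option linter.unusedVariables false

namespace Pool.Agent.H68.SO.SCP

open Pool.Agent.H68.BP Pool.Agent.H58.SF Pool.Agent.H53.GC Pool.Agent.H53.NR Pool.Agent.H58.SO

theorem pf_SCP : T_SCP := by
  intro V X Θ _ M B P P' I R R' _ _ x lev ρ x' lev' ρ' supp z z' h h' u v u' v' l l' hu hv tu tv
    hρ hx
  rw [B.ct_eq_ct, h.lt, h.lt, h'.lt, h'.lt, ← hu, ← hv]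
  refine ⟨?_, ?_, ?_⟩
  · by_cases hs : (supp (lev u l) ∩ supp (lev v l')).Nonempty ∧ x u l ≠ x v l'
    · obtain ⟨h1, h2⟩ := hx hs.1
      rw [(h.col u l v l').1 hs, (h'.col u' l v' l').1 ⟨by rw [← hu, ← hv]; exact hs.1,
        fun h3 => hs.2 (h1.2 h3)⟩, h2]
    · rw [(h.col u l v l').2 hs, (h'.col u' l v' l').2 ?_, tu, tv]
      rintro ⟨h1, h2⟩
      rw [← hu, ← hv] at h1
      exact hs ⟨h1, fun h3 => h2 ((hx h1).1.1 h3)⟩
  · constructor
    · rintro (h1 | ⟨h1, h2⟩)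
      · exact Or.inl h1
      · exact Or.inr ⟨h1, (hρ h1).1.1 h2⟩
    · rintro (h1 | ⟨h1, h2⟩)
      · exact Or.inl h1
      · exact Or.inr ⟨h1, (hρ h1).1.2 h2⟩
  · constructor
    · rintro (h1 | ⟨h1, h2⟩)
      · exact Or.inl h1
      · exact Or.inr ⟨h1, (hρ h1.symm).2.1 h2⟩
    · rintro (h1 | ⟨h1, h2⟩)
      · exact Or.inl h1
      · exact Or.inr ⟨h1, (hρ h1.symm).2.2 h2⟩

end Pool.Agent.H68.SO.SCP
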