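import Pool.Agent.H58.SO.Basic

/-!
# Several orbits of vertices: from orders to families, one more argument
-/

set_option autoImplicit false
set_option linter.unusedVariables false

namespace Pool.Agent.H68.SO.LF1

open Pool.Agent.H68.BP Pool.Agent.H58.SF Pool.Agent.H53.GC Pool.Agent.H53.NR Pool.Agent.H58.SO
open Pool.Agent.H57.EQ (Tour)
open Classical

section

variable {V X Θ : Type} {M : ℕ} [LinearOrder V] {σ : Sig} {B : Bs V X Θ M} {𝔸 : Str σ V}
  {D : Set Θ}

/-- The colours given by `w` at ascending (`r`) or descending pairs. -/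
noncomputable def dual (B : Bs V X Θ M) {p : ℕ} (w : (ZMod p → X) → X) (r : Bool)
    (u : ZMod p → X) : X :=
  if r = true then w u else B.inv (w (fun i => B.inv (u i)))

theorem shift_w {p : ℕ} [NeZero p] {w : (ZMod p → X) → X} (hw : CycW B 𝔸 D p w)
    (t : ZMod p → X) (j : ZMod p) : w (fun i => t (i - j)) = w t := by
  have h1 : ∀ k : ℕ, w (fun i => t (i + k)) = w t := by
    intro k
    induction k with
    | zero => simp
    | succ k ih =>
      rw [← ih, ← hw.cyc (fun i => t (i + k))]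
      congr 1
      funext i
      push_cast
      congr 1
      ring
  have h2 := h1 (-j).val
  rw [ZMod.natCast_zmod_val] at h2
  rw [← h2]
  congr 1
  funext i
  rw [sub_eq_add_neg]

theorem shift_dual {p : ℕ} [NeZero p] {w : (ZMod p → X) → X} (hw : CycW B 𝔸 D p w) (r : Bool)
    (t : ZMod p → X) (j : ZMod p) : dual B w r (fun i => t (i - j)) = dual B w r t := by
  unfold dual
  rw [shift_w hw t j, shift_w hw (fun i => B.inv (t i)) j]

/-- The bit of the position `i`. -/
def bit {p : ℕ} (q : Bool) (i : ZMod p) : Bool :=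
  q == decide (i.val < (p + 1) / 2)

/-- another bit -/
def sb (f : Bool → Bool) (z : Te X Θ) : Te X Θ :=
  (z.1, z.2.map (Option.map fun co => (co.1, f co.2)))

theorem sb_fst (f : Bool → Bool) (z : Te X Θ) : (sb f z).1 = z.1 := rfl

theorem sb_none (f : Bool → Bool) (z : Te X Θ) : (sb f z).2 = none ↔ z.2 = none := by
  unfold sb
  simp

theorem sb_some_none (f : Bool → Bool) (z : Te X Θ) :
    (sb f z).2 = some none ↔ z.2 = some none := by
  unfold sb
  simp

theorem sb_some {f : Bool → Bool} {z : Te X Θ} {t : (X × X) × Bool}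
    (h : (sb f z).2 = some (some t)) : ∃ co, z.2 = some (some co) ∧ t = (co.1, f co.2) := by
  unfold sb at h
  simp only [Option.map_eq_some_iff] at h
  obtain ⟨a, h1, b, h2, h3⟩ := h
  refine ⟨b, ?_, h3.symm⟩
  rw [h1, h2]

theorem sb_congr {f g : Bool → Bool} {z : Te X Θ}
    (h : ∀ co, z.2 = some (some co) → f co.2 = g co.2) : sb f z = sb g z := by
  unfold sb
  refine Prod.ext rfl ?_
  show z.2.map _ = z.2.map _
  rcases hz : z.2 with _ | _ | co
  · rfl
  · rfl
  · show some (some (co.1, f co.2)) = some (some (co.1, g co.2))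
    rw [h co hz]

/-- the operation for one more argument -/
noncomputable def psi (B : Bs V X Θ M) {n : ℕ} (m₀ : Fin n) (ψ : (Fin n → Te X Θ) → Bool → X)
    {p : ℕ} (w : (ZMod p → X) → X) (z : Fin n → Te X Θ) (r : Bool) : X :=
  dual B w r (fun i => ψ (Function.update z m₀ (sb (fun q => bit q i) (z m₀))) r)

/-- a tournament with linear order on the labels in use -/
theorem fam_sb {s : Option (Fin σ.m)} {q : Fin (arP σ M s) × Fin (arP σ M s) → Te X Θ}
    {θ : Fin (arP σ M s) → Θ} {k : Fin (arP σ M s) → ℕ} {T : ℕ → ℕ → Bool}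
    (hF : Fam3 B 𝔸 D s q θ k T) (L : ℕ → ℕ) (hL : ∀ a b, k a ≠ k b → L (k a) ≠ L (k b)) :
    ∃ T', Fam3 B 𝔸 D s (fun e => sb (fun _ => decide (L (k e.1) < L (k e.2))) (q e)) θ k T' ∧
      ∀ a b, k a ≠ k b → T' (k a) (k b) = decide (L (k a) < L (k b)) := by
  refine ⟨fun x y => if (∃ a, k a = x) ∧ (∃ b, k b = y) then decide (L x < L y) else T x y,
    ⟨?_, ?_, ?_, ?_, ?_, ?_⟩, ?_⟩
  · intro x y hxy
    by_cases h : (∃ a, k a = x) ∧ (∃ b, k b = y)
    · show ite _ _ _ = !(ite _ _ _)
      rw [if_pos h, if_pos ⟨h.2, h.1⟩]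
      obtain ⟨⟨a, rfl⟩, b, rfl⟩ := h
      have h1 := hL a b hxy
      rw [Bool.eq_iff_iff]
      simp only [decide_eq_true_eq, Bool.not_eq_true', decide_eq_false_iff_not, not_lt]
      omega
    · show ite _ _ _ = !(ite _ _ _)
      rw [if_neg h, if_neg (fun h' => h ⟨h'.2, h'.1⟩)]
      exact hF.tour x y hxy
  · intro a b
    exact hF.typ a b
  · intro a b
    rw [← hF.star a b]
    exact sb_none _ _
  · intro a b ha hb
    rw [← hF.eq a b ha hb]
    exact sb_some_none _ _
  · intro a b t ht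
    obtain ⟨co, h1, h2⟩ := sb_some ht
    rw [h2]
    show decide _ = ite _ _ _
    rw [if_pos ⟨⟨a, rfl⟩, b, rfl⟩]
  · intro rk hrk
    obtain ⟨x, h1, h2, h3, h4⟩ := hF.fam rk hrk
    refine ⟨x, h1, h2, h3, fun a b t ht => ?_⟩
    obtain ⟨co, h5, h6⟩ := sb_some ht
    rw [h6]
    exact h4 a b co h5
  · intro a b hab
    show ite _ _ _ = _
    rw [if_pos ⟨⟨a, rfl⟩, b, rfl⟩]

/-- The orders of an almost linear tournament on the labels. -/
theorem lab_ord {K p : ℕ} [NeZero p]
    (hP : ∀ o : Fin K → Fin K → Prop, (∀ a b, a ≠ b → (o a b ↔ ¬ o b a)) →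
      ∃ rk : ZMod p → Fin K → ℕ, (∀ i, Function.Injective (rk i)) ∧ ∀ a b, a ≠ b → o a b →
          ∃ j : ZMod p, ∀ i : ZMod p, rk i a < rk i b ↔ (i - j).val < (p + 1) / 2)
    (k : Fin K → ℕ) (T : ℕ → ℕ → Bool) (hT : Tour T) :
    ∃ L : ZMod p → ℕ → ℕ, (∀ i a b, k a ≠ k b → L i (k a) ≠ L i (k b)) ∧
      ∀ a b, k a ≠ k b → ∃ j : ZMod p, ∀ i,
        decide (L i (k a) < L i (k b)) = bit (T (k a) (k b)) (i - j) := by
  obtain ⟨rk, hinj, hrk⟩ := hP
    (fun a b => if k a ≠ k b then T (k a) (k b) = true else a < b) (by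
      intro a b hab
      by_cases h : k a = k b
      · rw [if_neg (by simp [h]), if_neg (by simp [h])]
        constructor
        · intro h1
          exact not_lt.2 h1.le
        · intro h1
          exact lt_of_le_of_ne (not_lt.1 h1) hab
      · rw [if_pos h, if_pos (Ne.symm h)]
        rw [hT _ _ h]
        cases T (k a) (k b) <;> simp)
  obtain ⟨lb, hlb⟩ : ∃ lb : Fin K → Fin K,
      lb = fun a => Classical.choose (⟨a, rfl⟩ : ∃ b, k b = k a) := ⟨_, rfl⟩
  have hxl : ∀ a, k (lb a) = k a := by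
    intro a
    rw [hlb]
    exact Classical.choose_spec (⟨a, rfl⟩ : ∃ b, k b = k a)
  have hlx : ∀ a b, k a = k b → lb a = lb b := by
    intro a b h
    rw [hlb]
    simp only [h]
  obtain ⟨L, hL⟩ : ∃ L : ZMod p → ℕ → ℕ, ∀ i a, L i (k a) = rk i (lb a) := by
    refine ⟨fun i v => if h : ∃ b, k b = v then rk i (lb (Classical.choose h)) else 0, ?_⟩
    intro i a
    simp only
    have hex : ∃ b, k b = k a := ⟨a, rfl⟩
    rw [dif_pos hex, hlx _ a (Classical.choose_spec hex)]
  have hne : ∀ a b, k a ≠ k b → lb a ≠ lb b := by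
    intro a b hab h
    apply hab
    rw [← hxl a, ← hxl b, h]
  refine ⟨L, fun i a b hab h => ?_, fun a b hab => ?_⟩
  · rw [hL, hL] at h
    exact hne a b hab (hinj i h)
  · have hk : k (lb a) ≠ k (lb b) := by rwa [hxl, hxl]
    by_cases hoab : T (k a) (k b) = true
    · obtain ⟨j, hj⟩ := hrk (lb a) (lb b) (hne a b hab) (by
        rw [if_pos hk, hxl, hxl]
        exact hoab)
      refine ⟨j, fun i => ?_⟩
      rw [hL, hL, hoab]
      unfold bit
      rw [Bool.eq_iff_iff]
      simp [hj i]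
    · have hoba : T (k b) (k a) = true := by
        rw [hT _ _ hab]
        simpa using hoab
      obtain ⟨j, hj⟩ := hrk (lb b) (lb a) (hne a b hab).symm (by
        rw [if_pos hk.symm, hxl, hxl]
        exact hoba)
      refine ⟨j, fun i => ?_⟩
      have h3 : rk i (lb a) < rk i (lb b) ↔ ¬ (i - j).val < (p + 1) / 2 := by
        rw [← hj i, not_lt]
        exact ⟨fun h => h.le, fun h => lt_of_le_of_ne h (fun h' => hne a b hab (hinj i h'))⟩
      have h4 : T (k a) (k b) = false := by simpa using hoab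
      rw [hL, hL, h4]
      unfold bit
      rw [Bool.eq_iff_iff]
      simp [h3]

end

theorem pf_LF1 (hALW : Pool.Agent.H44.EQ.T_ALW) : T_LF1 := by
  intro σ V X Θ _ M B 𝔸 D n Q φ J E hT hC S m₀ ⟨ψ, hψ⟩
  by_cases hm₀ : m₀ ∈ S
  · rw [Set.insert_eq_of_mem hm₀]
    exact ⟨ψ, hψ⟩
  choose P hP using hALW
  obtain ⟨N₀, hN⟩ := hC
  obtain ⟨p, hp1, hp2⟩ := Nat.exists_infinite_primes (3 + N₀ + ∑ s : Option (Fin σ.m), P (arP σ M s))
  have hPs : ∀ s : Option (Fin σ.m), P (arP σ M s) ≤ p := by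
    intro s
    have h1 := Finset.single_le_sum (f := fun s => P (arP σ M s)) (fun _ _ => Nat.zero_le _)
      (Finset.mem_univ s)
    have h2 : P (arP σ M s) ≤ ∑ s : Option (Fin σ.m), P (arP σ M s) := h1
    omega
  have hodd : Odd p := hp2.odd_of_ne_two (by omega)
  have hp0 : NeZero p := ⟨hp2.ne_zero⟩
  obtain ⟨w, hw⟩ := hN p hp2 (by omega)
  refine ⟨psi B m₀ ψ w, ?_⟩
  intro s q θ k T hF hL hQ rk hrk
  obtain ⟨L, hL1, hL2⟩ := lab_ord (hP (arP σ M s) p (hPs s) hodd) (k m₀) (T m₀) (hF m₀).tour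
  have hfs := fun i => fam_sb (hF m₀) (L i) (hL1 i)
  choose T' hT' hT'2 using hfs
  have hy := fun i => hψ s (Function.update q m₀
      (fun e => sb (fun _ => decide (L i (k m₀ e.1) < L i (k m₀ e.2))) (q m₀ e))) θ k
    (Function.update T m₀ (T' i)) (by
      intro m
      by_cases hm : m = m₀
      · subst hm
        rw [Function.update_self, Function.update_self]
        exact hT' i
      · rw [Function.update_of_ne hm, Function.update_of_ne hm]
        exact hF m) (by
      intro m hm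
      by_cases hm' : m = m₀
      · subst hm'
        rw [Function.update_self]
        exact ⟨L i, fun a b hab => ⟨hL1 i a b hab, hT'2 i a b hab⟩⟩
      · rw [Function.update_of_ne hm']
        exact hL m fun h => h.elim hm' hm) hQ rk hrk
  choose x hx1 hx2 hx3 using hy
  obtain ⟨y, hy1, hy2, hy3⟩ := hw.rel s x hx1 (fun i a => by rw [hx2, hx2])
    (fun i a b ha hb => by
      rw [hx2] at ha hb
      rw [(hx3 i a b ha hb).1, (hx3 0 a b ha hb).1]) rk
    (fun a b ha hb => by
      rw [hx2] at ha hb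
      exact (hx3 0 a b ha hb).1.symm)
  refine ⟨y, hy1, fun a => by rw [hy2, hx2], fun a b ha hb => ?_⟩
  have hxa : B.vt (x 0 a) ∉ D := by rw [hx2]; exact ha
  have hxb : B.vt (x 0 b) ∉ D := by rw [hx2]; exact hb
  refine ⟨by rw [(hy3 a b hxa hxb).1, (hx3 0 a b ha hb).1], fun hne => ?_⟩
  have hcol : B.c (y a) (y b) = dual B w (decide (rk a < rk b))
      (fun i => B.c (x i a) (x i b)) := by
    unfold dual
    by_cases hlt : rk a < rk b
    · rw [if_pos (by simpa using hlt)]
      exact (hy3 a b hxa hxb).2 hlt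
    · have hgt : rk b < rk a := by omega
      rw [if_neg (by simpa using hlt), B.sym (y b) (y a), (hy3 b a hxb hxa).2 hgt]
      congr 2
      funext i
      exact B.sym _ _
  rw [hcol]
  obtain ⟨j, hj⟩ : ∃ j : ZMod p, ∀ i,
      sb (fun _ => decide (L i (k m₀ a) < L i (k m₀ b))) (q m₀ (a, b)) =
        sb (fun r => bit r (i - j)) (q m₀ (a, b)) := by
    by_cases hco : ∃ co, (q m₀ (a, b)).2 = some (some co)
    · obtain ⟨co, hco⟩ := hco
      have h1 : θ m₀ a ∉ D ∧ θ m₀ b ∉ D := by
        have h2 : ¬ (q m₀ (a, b)).2 = none := by rw [hco]; simp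
        rw [(hF m₀).star a b] at h2
        exact not_or.1 h2
      have h3 : k m₀ a ≠ k m₀ b := by
        rw [Ne, ← (hF m₀).eq a b h1.1 h1.2, hco]
        simp
      obtain ⟨j, hj⟩ := hL2 a b h3
      refine ⟨j, fun i => sb_congr fun co' h' => ?_⟩
      rw [hj i, (hF m₀).bit a b co' h']
    · exact ⟨0, fun i => sb_congr fun co' h' => absurd ⟨co', h'⟩ hco⟩
  unfold psi
  refine Eq.trans ?_ (shift_dual hw _ _ j)
  congr 1
  funext i
  rw [(hx3 i a b ha hb).2 hne]
  congr 1
  funext m
  by_cases hm : m = m₀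
  · subst hm
    rw [Function.update_self, Function.update_self]
    exact hj i
  · rw [Function.update_of_ne hm, Function.update_of_ne hm]

end Pool.Agent.H68.SO.LF1
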